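import Pool.Agent.H48.M5.Stmts

/-!
# L1: the difference of the forms of two lines in one cell
-/

set_option autoImplicit false

namespace Pool.M5

open Finset Real
open Pool.Agent.H49.Ent Pool.Agent.H32.Dense Pool.STK Pool.KAF

/-! ### Interpolation -/

theorem prod_coeff_le {ι : Type} [DecidableEq ι] (s : Finset ι) (α β : ι → ℝ) (a : ℕ) :
    |(∏ j ∈ s, (Polynomial.C (α j) * (Polynomial.X - Polynomial.C (β j)))).coeff a| ≤
      ∏ j ∈ s, (|α j| * (1 + |β j|)) := by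
  induction s using Finset.induction_on generalizing a with
  | empty =>
    rw [Finset.prod_empty, Finset.prod_empty]
    by_cases h : a = 0
    · rw [h, Polynomial.coeff_one_zero, abs_one]
    · rw [Polynomial.coeff_one, if_neg h, abs_zero]
      exact zero_le_one
  | insert j s hj ih =>
    rw [Finset.prod_insert hj, Finset.prod_insert hj]
    set R := ∏ j ∈ s, (Polynomial.C (α j) * (Polynomial.X - Polynomial.C (β j))) with hR
    set B := ∏ j ∈ s, (|α j| * (1 + |β j|)) with hB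
    have hB0 : 0 ≤ B := (abs_nonneg _).trans (ih 0)
    have h1 : (Polynomial.C (α j) * (Polynomial.X - Polynomial.C (β j))) * R =
        Polynomial.C (α j) * (R * (Polynomial.X - Polynomial.C (β j))) := by ring
    rw [h1, Polynomial.coeff_C_mul, abs_mul, mul_assoc]
    refine mul_le_mul_of_nonneg_left ?_ (abs_nonneg _)
    cases a with
    | zero =>
      rw [Polynomial.mul_coeff_zero]
      simp only [Polynomial.coeff_sub, Polynomial.coeff_X_zero, Polynomial.coeff_C_zero, zero_sub]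
      rw [abs_mul, abs_neg]
      have h2 := ih 0
      have h3 := abs_nonneg (β j)
      nlinarith
    | succ a =>
      rw [Polynomial.coeff_mul_X_sub_C]
      have h2 := ih a
      have h3 := ih (a + 1)
      have h4 := abs_sub (R.coeff a) (R.coeff (a + 1) * β j)
      rw [abs_mul] at h4
      have h5 := abs_nonneg (β j)
      nlinarith

/-- The coefficients of the interpolation at separated nodes. -/
theorem zr_lag_le {n : ℕ} (k₀ : ℕ) (θ f : Fin (n + 1) → ℝ) {M : ℝ} (hθ : ∀ j, |θ j| ≤ 1)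
    (hs : ∀ j j', j ≠ j' → (2 : ℝ) ^ (-(k₀ : ℤ)) ≤ |θ j - θ j'|) (hf : ∀ j, |f j| ≤ M) (a : ℕ) :
    |lag θ f a| ≤ (n + 1) * 2 ^ ((k₀ + 1) * n) * M := by
  classical
  have hM : 0 ≤ M := (abs_nonneg _).trans (hf 0)
  unfold lag
  rw [Lagrange.interpolate_apply, Polynomial.finsetSum_coeff]
  refine (Finset.abs_sum_le_sum_abs _ _).trans ?_
  have h1 : ∀ j ∈ (univ : Finset (Fin (n + 1))),
      |(Polynomial.C (f j) * Lagrange.basis univ θ j).coeff a| ≤ 2 ^ ((k₀ + 1) * n) * M := by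
    intro j _
    rw [Polynomial.coeff_C_mul, abs_mul, mul_comm]
    refine mul_le_mul ?_ (hf j) (abs_nonneg _) (by positivity)
    unfold Lagrange.basis Lagrange.basisDivisor
    refine (prod_coeff_le _ (fun j' => (θ j - θ j')⁻¹) θ a).trans ?_
    have h2 : ∀ j' ∈ (univ : Finset (Fin (n + 1))).erase j,
        |(θ j - θ j')⁻¹| * (1 + |θ j'|) ≤ 2 ^ (k₀ + 1) := by
      intro j' hj'
      have h3 := hs j j' (Finset.ne_of_mem_erase hj').symm
      have h4 : (0 : ℝ) < 2 ^ (-(k₀ : ℤ)) := by positivity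
      have h5 : |(θ j - θ j')⁻¹| ≤ 2 ^ k₀ := by
        rw [abs_inv]
        refine (inv_anti₀ h4 h3).trans (le_of_eq ?_)
        rw [zpow_neg, inv_inv, zpow_natCast]
      have h6 := hθ j'
      rw [pow_succ]
      exact mul_le_mul h5 (by linarith) (by positivity) (by positivity)
    refine (Finset.prod_le_prod (fun _ _ => by positivity) h2).trans (le_of_eq ?_)
    rw [Finset.prod_const, Finset.card_erase_of_mem (Finset.mem_univ j), Finset.card_univ,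
      Fintype.card_fin, Nat.add_sub_cancel, ← pow_mul]
  refine (Finset.sum_le_sum h1).trans (le_of_eq ?_)
  rw [Finset.sum_const, Finset.card_univ, Fintype.card_fin, nsmul_eq_mul]
  push_cast
  ring

section

variable {k n : ℕ} {I : Type} [Fintype I] (b : Bas k I) (d : LDat k n I)

/-! ### Linearity -/

theorem pol_sub (a a' : I → ℝ) (x : Fin k → ℝ) :
    pol b (fun i => a i - a' i) x = pol b a x - pol b a' x := by
  unfold pol
  rw [← Finset.sum_sub_distrib]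
  exact Finset.sum_congr rfl fun i _ => by ring

theorem pol_smul (c : ℝ) (a : I → ℝ) (x : Fin k → ℝ) :
    pol b (fun i => c * a i) x = c * pol b a x := by
  unfold pol
  rw [Finset.mul_sum]
  exact Finset.sum_congr rfl fun i _ => by ring

theorem pol_sum {ι : Type} (s : Finset ι) (a : ι → I → ℝ) (x : Fin k → ℝ) :
    pol b (fun i => ∑ r ∈ s, a r i) x = ∑ r ∈ s, pol b (a r) x := by
  unfold pol
  rw [Finset.sum_comm]
  exact Finset.sum_congr rfl fun i _ => by rw [Finset.sum_mul]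

theorem grd_sub (a a' : I → ℝ) (x : Fin k → ℝ) (j : Fin k) :
    grd b (fun i => a i - a' i) x j = grd b a x j - grd b a' x j := by
  unfold grd
  rw [← Finset.sum_sub_distrib]
  exact Finset.sum_congr rfl fun i _ => by ring

theorem grd_smul (c : ℝ) (a : I → ℝ) (x : Fin k → ℝ) (j : Fin k) :
    grd b (fun i => c * a i) x j = c * grd b a x j := by
  unfold grd
  rw [Finset.mul_sum]
  exact Finset.sum_congr rfl fun i _ => by ring

theorem grd_sum {ι : Type} (s : Finset ι) (a : ι → I → ℝ) (x : Fin k → ℝ) (j : Fin k) :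
    grd b (fun i => ∑ r ∈ s, a r i) x j = ∑ r ∈ s, grd b (a r) x j := by
  unfold grd
  rw [Finset.sum_comm]
  exact Finset.sum_congr rfl fun i _ => by rw [Finset.sum_mul]

/-- The gradient of a pair relative to the reference. -/
theorem gr_eq (r : ℕ) (u : (Fin (n + 1) → d.Om) × (d.Om × d.Om)) (j : Fin k) :
    d.gr b r u j = grd b (d.sg u.2) (d.y₀ r (d.L (u.1 0))) j -
      ∑ a, d.dt a u.2 * grd b (d.As u.1 a) (d.y₀ r (d.L (u.1 0))) j := by
  have h1 := grd_sub b (d.sg u.2) (fun i => ∑ a, d.dt a u.2 * d.As u.1 a i)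
    (d.y₀ r (d.L (u.1 0))) j
  rw [grd_sum b univ (fun a i => d.dt a u.2 * d.As u.1 a i)] at h1
  simp only [grd_smul] at h1
  exact h1

theorem As_congr {u v : Fin (n + 1) → d.Om} (h : ∀ j, d.T (v j) = d.T (u j)) (a : Fin n) :
    d.As v a = d.As u a := by
  funext i
  unfold LDat.As
  simp only [h]

/-- The difference of the forms of two lines whose references have the same times. -/
theorem zr_id (u : (Fin (n + 1) → d.Om) × (d.Om × d.Om)) (v : Fin (n + 1) → d.Om)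
    (h : ∀ j, d.T (v j) = d.T (u.1 j)) :
    d.Z b (d.T u.2.1) (d.T u.2.2) (d.y (d.L (u.1 0)), d.c (d.L (u.1 0))) -
      d.Z b (d.T u.2.1) (d.T u.2.2) (d.y (d.L (v 0)), d.c (d.L (v 0))) =
    ∑ a, d.dt a u.2 * (d.cs b u.1 a - d.cs b v a) -
      (pol b (d.rs u) (d.yR (d.L (u.1 0))) - pol b (d.rs u) (d.yR (d.L (v 0)))) := by
  have e1 : ∀ (l : d.Lam), d.Z b (d.T u.2.1) (d.T u.2.2) (d.y l, d.c l) =
      ∑ a, d.dt a u.2 * d.cR l a - (d.s (d.T u.2.2) - d.s (d.T u.2.1)) -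
        pol b (d.sg u.2) (d.yR l) := by
    intro l
    have e2 : pol b (d.sg u.2) (d.yR l) =
        pol b (d.co (d.T u.2.2)) (d.yR l) - pol b (d.co (d.T u.2.1)) (d.yR l) :=
      pol_sub b (d.co (d.T u.2.2)) (d.co (d.T u.2.1)) (d.yR l)
    rw [e2]
    rfl
  have e3 : ∀ x, pol b (d.rs u) x =
      pol b (d.sg u.2) x - ∑ a, d.dt a u.2 * pol b (d.As u.1 a) x := by
    intro x
    have h1 := pol_sub b (d.sg u.2) (fun i => ∑ a, d.dt a u.2 * d.As u.1 a i) x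
    rw [pol_sum b univ (fun a i => d.dt a u.2 * d.As u.1 a i)] at h1
    simp only [pol_smul] at h1
    exact h1
  have e4 : ∀ a, d.cs b v a = d.cR (d.L (v 0)) a - pol b (d.As u.1 a) (d.yR (d.L (v 0))) := by
    intro a
    unfold LDat.cs
    rw [As_congr d h a]
  rw [e1, e1, e3, e3]
  simp only [e4]
  unfold LDat.cs
  have e5 : ∀ (A B C D : Fin n → ℝ), ∑ a, d.dt a u.2 * (A a - B a - (C a - D a)) =
      ∑ a, d.dt a u.2 * A a - ∑ a, d.dt a u.2 * B a - ∑ a, d.dt a u.2 * C a +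
        ∑ a, d.dt a u.2 * D a := by
    intro A B C D
    rw [← Finset.sum_sub_distrib, ← Finset.sum_sub_distrib, ← Finset.sum_add_distrib]
    exact Finset.sum_congr rfl fun a _ => by ring
  rw [e5]
  ring

/-! ### Bounds -/

theorem pow_diff_le (a : ℕ) {x y : ℝ} (hx : 0 ≤ x) (hx1 : x ≤ 1) (hy : 0 ≤ y) (hy1 : y ≤ 1) :
    |x ^ (a + 1) - y ^ (a + 1)| ≤ (a + 1) * |x - y| := by
  induction a with
  | zero => simp
  | succ a ih =>
    have h1 : x ^ (a + 1 + 1) - y ^ (a + 1 + 1) =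
        x * (x ^ (a + 1) - y ^ (a + 1)) + (x - y) * y ^ (a + 1) := by ring
    rw [h1]
    refine (abs_add_le _ _).trans ?_
    rw [abs_mul, abs_mul, abs_of_nonneg hx, abs_of_nonneg (pow_nonneg hy _)]
    have h2 : y ^ (a + 1) ≤ 1 := pow_le_one₀ hy hy1
    have h3 := abs_nonneg (x - y)
    have h4 := abs_nonneg (x ^ (a + 1) - y ^ (a + 1))
    push_cast
    nlinarith

theorem dt_le {A : ℕ} {c : ℝ} (hOK : d.OK b A c) (a : Fin n) (w : d.Om × d.Om) :
    |d.dt a w| ≤ (a.val + 1) * |d.ta w| := by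
  unfold LDat.dt LDat.ta
  have h1 := hOK.hth (d.T w.2)
  have h2 := hOK.hth (d.T w.1)
  exact pow_diff_le a.val h1.1 h1.2.le h2.1 h2.2.le

theorem dt_le' {A : ℕ} {c : ℝ} (hOK : d.OK b A c) (a : Fin n) (w : d.Om × d.Om) :
    |d.dt a w| ≤ n * |d.ta w| := by
  refine (dt_le b d hOK a w).trans (mul_le_mul_of_nonneg_right ?_ (abs_nonneg _))
  exact_mod_cast a.isLt

theorem ta_le {A : ℕ} {c : ℝ} (hOK : d.OK b A c) (w : d.Om × d.Om) : |d.ta w| ≤ 1 := by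
  have k1 := hOK.hth (d.T w.1)
  have k2 := hOK.hth (d.T w.2)
  unfold LDat.ta
  rw [abs_le]
  constructor <;> linarith

theorem sum_fin_le (n : ℕ) : ∑ a : Fin n, ((a.val : ℝ) + 1) ≤ (n + 1) ^ 2 / 2 := by
  rw [Fin.sum_univ_eq_sum_range (fun a => (a : ℝ) + 1) n]
  induction n with
  | zero => simp
  | succ n ih =>
    rw [Finset.sum_range_succ]
    push_cast
    nlinarith

/-- The part of the unknown numbers in the form. -/
theorem dts_le {A : ℕ} {c : ℝ} (hOK : d.OK b A c) (w : d.Om × d.Om) (x : Fin n → ℝ) {r : ℝ}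
    (hx : ∀ a, |x a| ≤ r) (hr : 0 ≤ r) :
    |∑ a, d.dt a w * x a| ≤ (n + 1) ^ 2 / 2 * |d.ta w| * r := by
  refine (Finset.abs_sum_le_sum_abs _ _).trans ?_
  have h1 : ∀ a ∈ (univ : Finset (Fin n)), |d.dt a w * x a| ≤ (a.val + 1) * (|d.ta w| * r) := by
    intro a _
    rw [abs_mul, ← mul_assoc]
    exact mul_le_mul (dt_le b d hOK a w) (hx a) (abs_nonneg _) (by positivity)
  refine (Finset.sum_le_sum h1).trans ?_
  rw [← Finset.sum_mul, mul_assoc]
  exact mul_le_mul_of_nonneg_right (sum_fin_le n) (by positivity)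

/-- The constant for separated references. -/
noncomputable def CA (n k₀ : ℕ) : ℝ := (n + 1) * 2 ^ ((k₀ + 1) * n)

theorem CA_pos (n k₀ : ℕ) : 0 < CA n k₀ := by unfold CA; positivity

theorem As_le {A : ℕ} {c : ℝ} (hOK : d.OK b A c) {k₀ : ℕ} {v : Fin (n + 1) → d.Om}
    (hv : d.sep k₀ v) (a : Fin n) (i : I) : |d.As v a i| ≤ CA n k₀ * (2 : ℝ) ^ c := by
  unfold LDat.As CA
  refine zr_lag_le k₀ _ _ ?_ hv (fun j => hOK.hco _ i) _
  intro j
  have h1 := hOK.hth (d.T (v j))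
  rw [abs_of_nonneg h1.1]
  exact h1.2.le

/-- The coefficients relative to a separated reference. -/
theorem rs_le {A : ℕ} {c : ℝ} (hOK : d.OK b A c) {k₀ : ℕ}
    {u : (Fin (n + 1) → d.Om) × (d.Om × d.Om)} (hu : d.sep k₀ u.1) (i : I) :
    |d.rs u i| ≤ (2 + (n + 1) ^ 2 * CA n k₀) * (2 : ℝ) ^ c := by
  have h1 : |d.sg u.2 i| ≤ 2 * (2 : ℝ) ^ c := by
    unfold LDat.sg
    have k1 := hOK.hco (d.T u.2.2) i
    have k2 := hOK.hco (d.T u.2.1) i
    have k3 := abs_sub (d.co (d.T u.2.2) i) (d.co (d.T u.2.1) i)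
    linarith
  have hc : (0 : ℝ) < (2 : ℝ) ^ c := by positivity
  have h2 := dts_le b d hOK u.2 (fun a => d.As u.1 a i) (r := CA n k₀ * (2 : ℝ) ^ c)
    (fun a => As_le b d hOK hu a i) (mul_pos (CA_pos n k₀) hc).le
  have h3 := ta_le b d hOK u.2
  have h4 : (n + 1 : ℝ) ^ 2 / 2 * |d.ta u.2| * (CA n k₀ * (2 : ℝ) ^ c) ≤
      (n + 1) ^ 2 * 1 * (CA n k₀ * (2 : ℝ) ^ c) := by
    refine mul_le_mul_of_nonneg_right ?_ (mul_pos (CA_pos n k₀) hc).le
    refine mul_le_mul ?_ h3 (abs_nonneg _) (by positivity)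
    have : (0 : ℝ) ≤ (n + 1) ^ 2 := by positivity
    linarith
  unfold LDat.rs
  have h5 := abs_sub (d.sg u.2 i) (∑ a, d.dt a u.2 * d.As u.1 a i)
  linarith

theorem floor_cell {r s : ℕ} (hrs : r ≤ s) {x x' : ℝ}
    (h : ⌊(2 : ℝ) ^ s * x⌋ = ⌊(2 : ℝ) ^ s * x'⌋) : ⌊(2 : ℝ) ^ r * x⌋ = ⌊(2 : ℝ) ^ r * x'⌋ := by
  have h1 : ∀ z : ℝ, ⌊(2 : ℝ) ^ r * z⌋ = ⌊(2 : ℝ) ^ s * z⌋ / ((2 : ℕ) ^ (s - r) : ℕ) := by
    intro z
    rw [← Int.floor_div_natCast]
    congr 1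
    rw [eq_div_iff (by positivity)]
    push_cast
    rw [mul_right_comm, ← pow_add, Nat.add_sub_cancel' hrs]
  rw [h1, h1, h]

theorem floor_near (r : ℕ) (x x' : ℝ) (h : ⌊(2 : ℝ) ^ r * x'⌋ = ⌊(2 : ℝ) ^ r * x⌋) :
    |x' - ⌊(2 : ℝ) ^ r * x⌋ / 2 ^ r| ≤ (2 : ℝ) ^ (-(r : ℤ)) := by
  have h0 : (0 : ℝ) < (2 : ℝ) ^ r := by positivity
  have h1 := Int.floor_le ((2 : ℝ) ^ r * x')
  have h2 := Int.lt_floor_add_one ((2 : ℝ) ^ r * x')
  rw [h] at h1 h2
  have h3 : x' - ⌊(2 : ℝ) ^ r * x⌋ / 2 ^ r = ((2 : ℝ) ^ r * x' - ⌊(2 : ℝ) ^ r * x⌋) / 2 ^ r := by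
    field_simp
  rw [h3, abs_div, abs_of_pos h0, zpow_neg, zpow_natCast, div_le_iff₀ h0,
    inv_mul_cancel₀ h0.ne', abs_le]
  constructor <;> linarith

theorem floor_unit (r : ℕ) (x : ℝ) (h : |x| ≤ 1) : |(⌊(2 : ℝ) ^ r * x⌋ : ℝ) / 2 ^ r| ≤ 1 := by
  have h0 : (0 : ℝ) < (2 : ℝ) ^ r := by positivity
  rw [abs_le] at h
  rw [abs_div, abs_of_pos h0, div_le_one h0, abs_le]
  constructor
  · have h1 : (-(2 : ℤ) ^ r) ≤ ⌊(2 : ℝ) ^ r * x⌋ := by
      rw [Int.le_floor]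
      push_cast
      nlinarith [h.1]
    have h2 : ((-(2 : ℤ) ^ r : ℤ) : ℝ) ≤ (⌊(2 : ℝ) ^ r * x⌋ : ℝ) := by exact_mod_cast h1
    push_cast at h2
    exact h2
  · have h1 := Int.floor_le ((2 : ℝ) ^ r * x)
    nlinarith [h.2]

theorem floor_close {σ : ℝ} (hσ : 0 < σ) {x x' : ℝ} (h : ⌊σ * x⌋ = ⌊σ * x'⌋) :
    |x - x'| ≤ σ⁻¹ := by
  have h1 := Int.floor_le (σ * x)
  have h2 := Int.lt_floor_add_one (σ * x)
  have h3 := Int.floor_le (σ * x')
  have h4 := Int.lt_floor_add_one (σ * x')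
  rw [h] at h1 h2
  have h5 : |σ * (x - x')| ≤ 1 := by
    rw [abs_le]
    constructor <;> nlinarith
  rw [abs_mul, abs_of_pos hσ] at h5
  rw [inv_eq_one_div, le_div_iff₀ hσ]
  linarith

/-! ### Cells -/

section cells

variable {m : (Fin (n + 1) → d.Om) → ℤ} {s : ℕ} {u v : Fin (n + 1) → d.Om}

theorem GA_T (hG : d.GA b m s v = d.GA b m s u) (j : Fin (n + 1)) : d.T (v j) = d.T (u j) :=
  congrFun (congrArg (fun z => z.1.1) hG) j

theorem GA_m (hG : d.GA b m s v = d.GA b m s u) : m v = m u :=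
  congrArg (fun z => z.1.2) hG

theorem GA_y (hG : d.GA b m s v = d.GA b m s u) (j : Fin k) :
    ⌊(2 : ℝ) ^ s * d.yR (d.L (v 0)) j⌋ = ⌊(2 : ℝ) ^ s * d.yR (d.L (u 0)) j⌋ :=
  congrFun (congrArg (fun z => z.2.1) hG) j

theorem GA_yle (hG : d.GA b m s v = d.GA b m s u) :
    ‖d.yR (d.L (u 0)) - d.yR (d.L (v 0))‖ ≤ (2 : ℝ) ^ (-(s : ℤ)) := by
  rw [pi_norm_le_iff_of_nonneg (by positivity)]
  intro j
  rw [Pi.sub_apply, Real.norm_eq_abs, zpow_neg, zpow_natCast]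
  exact floor_close (by positivity) (GA_y b d hG j).symm

theorem GA_cle (hG : d.GA b m s v = d.GA b m s u) (a : Fin n) :
    |d.cs b u a - d.cs b v a| ≤ (2 : ℝ) ^ (-((s : ℤ) + m u)) := by
  have h1 : ⌊(2 : ℝ) ^ ((s : ℤ) + m v) * d.cs b v a⌋ =
      ⌊(2 : ℝ) ^ ((s : ℤ) + m u) * d.cs b u a⌋ :=
    congrFun (congrArg (fun z => z.2.2) hG) a
  rw [GA_m b d hG] at h1
  rw [zpow_neg]
  exact floor_close (by positivity) h1.symm

end cells

/-- **Taylor.** The difference of the forms of two lines in one cell, up to a small error. -/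
theorem zr_close (k n k₀ g : ℕ) : ∃ n₀ : ℕ, ∀ (I : Type) [Fintype I] (b : Bas k I)
    (d : LDat k n I) (A ns h : ℕ) (m : (Fin (n + 1) → d.Om) → ℤ) (c : ℝ), d.OK b A c → Siz b d ns h m c →
    n₀ ≤ ns → ∀ (s : ℕ) (u : (Fin (n + 1) → d.Om) × (d.Om × d.Om)) (v : Fin (n + 1) → d.Om),
    8 * ns ≤ s → d.sep k₀ u.1 → d.GA b m s v = d.GA b m s u.1 →
    |d.Z b (d.T u.2.1) (d.T u.2.2) (d.y (d.L (u.1 0)), d.c (d.L (u.1 0))) -
      d.Z b (d.T u.2.1) (d.T u.2.2) (d.y (d.L (v 0)), d.c (d.L (v 0))) -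
      (∑ a, d.dt a u.2 * (d.cs b u.1 a - d.cs b v a) -
        ∑ j, d.gr b (8 * ns) u j * (d.yR (d.L (u.1 0)) j - d.yR (d.L (v 0)) j))| ≤
      (2 : ℝ) ^ (-(7 * ns : ℤ) - g) * ‖d.yR (d.L (u.1 0)) - d.yR (d.L (v 0))‖ := by
  obtain ⟨n₁, hn₁⟩ := pow_unbounded_of_one_lt (2 + (n + 1) ^ 2 * CA n k₀) (one_lt_two : (1 : ℝ) < 2)
  refine ⟨2 * (n₁ + g), ?_⟩
  intro I _ b d A ns h m c hOK hS hns s u v hs hu hG
  have g4 : ∀ j, ⌊(2 : ℝ) ^ (8 * ns) * d.yR (d.L (v 0)) j⌋ =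
      ⌊(2 : ℝ) ^ (8 * ns) * d.yR (d.L (u.1 0)) j⌋ := fun j => floor_cell hs (GA_y b d hG j)
  rw [zr_id b d u v (GA_T b d hG)]
  have e1 : ∀ A B C : ℝ, A - B - (A - C) = -(B - C) := fun A B C => by ring
  rw [e1, abs_neg]
  set xu := d.yR (d.L (u.1 0)) with hxu
  set xv := d.yR (d.L (v 0)) with hxv
  have e2 : pol b (d.rs u) xu - pol b (d.rs u) xv -
      ∑ j, d.gr b (8 * ns) u j * (xu j - xv j) =
      ∑ i, d.rs u i * (b.g i xu - b.g i xv -
        ∑ j, b.D i (d.y₀ (8 * ns) (d.L (u.1 0))) j * (xu j - xv j)) := by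
    have h1 : ∑ j, d.gr b (8 * ns) u j * (xu j - xv j) =
        ∑ i, d.rs u i * ∑ j, b.D i (d.y₀ (8 * ns) (d.L (u.1 0))) j * (xu j - xv j) := by
      unfold LDat.gr grd
      simp only [Finset.sum_mul, Finset.mul_sum]
      rw [Finset.sum_comm]
      exact Finset.sum_congr rfl fun i _ => Finset.sum_congr rfl fun j _ => by ring
    rw [h1]
    unfold pol
    rw [← Finset.sum_sub_distrib, ← Finset.sum_sub_distrib]
    exact Finset.sum_congr rfl fun i _ => by ring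
  rw [e2]
  have hn1 : (2 : ℝ) ^ (-((8 * ns : ℕ) : ℤ)) = (2 : ℝ) ^ (-(8 * ns : ℤ)) := by norm_num
  have h3 : ∀ i ∈ (univ : Finset I), |d.rs u i * (b.g i xu - b.g i xv -
      ∑ j, b.D i (d.y₀ (8 * ns) (d.L (u.1 0))) j * (xu j - xv j))| ≤
      ((2 + (n + 1) ^ 2 * CA n k₀) * (2 : ℝ) ^ c) *
        (b.C * (2 : ℝ) ^ (-(8 * ns : ℤ)) * ‖xu - xv‖) := by
    intro i _
    rw [abs_mul]
    have hCA := CA_pos n k₀
    refine mul_le_mul (rs_le b d hOK hu i) ?_ (abs_nonneg _) (by positivity)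
    refine b.tay i xu xv (d.y₀ (8 * ns) (d.L (u.1 0))) (hOK.hy _) (hOK.hy _) ?_ _ ?_ ?_
    · intro j
      exact floor_unit (8 * ns) _ (hOK.hy _ j)
    · intro j
      rw [← hn1]
      exact floor_near (8 * ns) _ _ rfl
    · intro j
      rw [← hn1]
      exact floor_near (8 * ns) _ _ (g4 j)
  refine (Finset.abs_sum_le_sum_abs _ _).trans ((Finset.sum_le_sum h3).trans ?_)
  rw [Finset.sum_const, Finset.card_univ, nsmul_eq_mul]
  have hC : 1 ≤ b.C := b.hC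
  have hcard : (0 : ℝ) ≤ (Fintype.card I : ℝ) := Nat.cast_nonneg _
  have hCA := CA_pos n k₀
  have h5 : (Fintype.card I : ℝ) * (((2 + (n + 1) ^ 2 * CA n k₀) * (2 : ℝ) ^ c) *
      (b.C * (2 : ℝ) ^ (-(8 * ns : ℤ)) * ‖xu - xv‖)) ≤
      (((2 : ℝ) ^ c * (b.C * (Fintype.card I + 1))) *
        ((2 : ℝ) ^ n₁ * (2 : ℝ) ^ (-(8 * ns : ℤ)))) * ‖xu - xv‖ := by
    have k2 : 0 ≤ (2 : ℝ) ^ c * b.C * (2 : ℝ) ^ (-(8 * ns : ℤ)) * ‖xu - xv‖ := by positivity
    have k3 : (Fintype.card I : ℝ) * (2 + (n + 1) ^ 2 * CA n k₀) ≤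
        (Fintype.card I + 1) * (2 : ℝ) ^ n₁ := by
      refine mul_le_mul (by linarith) hn₁.le (by positivity) (by positivity)
    have k4 := mul_le_mul_of_nonneg_right k3 k2
    calc (Fintype.card I : ℝ) * (((2 + (n + 1) ^ 2 * CA n k₀) * (2 : ℝ) ^ c) *
        (b.C * (2 : ℝ) ^ (-(8 * ns : ℤ)) * ‖xu - xv‖)) =
        (Fintype.card I : ℝ) * (2 + (n + 1) ^ 2 * CA n k₀) *
          ((2 : ℝ) ^ c * b.C * (2 : ℝ) ^ (-(8 * ns : ℤ)) * ‖xu - xv‖) := by ring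
      _ ≤ _ := k4
      _ = _ := by ring
  refine h5.trans ?_
  refine mul_le_mul_of_nonneg_right ?_ (norm_nonneg _)
  refine (mul_le_mul_of_nonneg_right hS.cn (by positivity)).trans ?_
  rw [← Real.rpow_intCast, ← Real.rpow_intCast, ← Real.rpow_natCast,
    ← Real.rpow_add (by norm_num), ← Real.rpow_add (by norm_num)]
  refine Real.rpow_le_rpow_of_exponent_le (by norm_num) ?_
  push_cast
  have h6 : (2 : ℝ) * (n₁ + g) ≤ ns := by exact_mod_cast hns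
  linarith

/-- The gradients relative to a separated reference are at most `2 ^ ns`. -/
theorem gr_le (k n k₀ g : ℕ) : ∃ n₀ : ℕ, ∀ (I : Type) [Fintype I] (b : Bas k I)
    (d : LDat k n I) (A ns h : ℕ) (m : (Fin (n + 1) → d.Om) → ℤ) (c : ℝ), d.OK b A c → Siz b d ns h m c →
    n₀ ≤ ns → ∀ (r : ℕ) (u : (Fin (n + 1) → d.Om) × (d.Om × d.Om)), d.sep k₀ u.1 →
    ‖d.gr b r u‖ ≤ (2 : ℝ) ^ ((ns : ℤ) - g) := by
  obtain ⟨n₁, hn₁⟩ := pow_unbounded_of_one_lt (2 + (n + 1) ^ 2 * CA n k₀) (one_lt_two : (1 : ℝ) < 2)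
  refine ⟨2 * (n₁ + g), ?_⟩
  intro I _ b d A ns h m c hOK hS hns r u hu
  rw [pi_norm_le_iff_of_nonneg (by positivity)]
  intro j
  rw [Real.norm_eq_abs]
  unfold LDat.gr grd
  have hCA := CA_pos n k₀
  have hC : 1 ≤ b.C := b.hC
  have hcard : (0 : ℝ) ≤ (Fintype.card I : ℝ) := Nat.cast_nonneg _
  have h3 : ∀ i ∈ (univ : Finset I), |d.rs u i * b.D i (d.y₀ r (d.L (u.1 0))) j| ≤
      ((2 + (n + 1) ^ 2 * CA n k₀) * (2 : ℝ) ^ c) * b.C := by
    intro i _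
    rw [abs_mul]
    refine mul_le_mul (rs_le b d hOK hu i) (b.hD i _ ?_ j) (abs_nonneg _) (by positivity)
    intro j'
    exact floor_unit r _ (hOK.hy _ j')
  refine (Finset.abs_sum_le_sum_abs _ _).trans ((Finset.sum_le_sum h3).trans ?_)
  rw [Finset.sum_const, Finset.card_univ, nsmul_eq_mul]
  have h5 : (Fintype.card I : ℝ) * (((2 + (n + 1) ^ 2 * CA n k₀) * (2 : ℝ) ^ c) * b.C) ≤
      ((2 : ℝ) ^ c * (b.C * (Fintype.card I + 1))) * (2 : ℝ) ^ n₁ := by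
    have k2 : 0 ≤ (2 : ℝ) ^ c * b.C := by positivity
    have k3 : (Fintype.card I : ℝ) * (2 + (n + 1) ^ 2 * CA n k₀) ≤
        (Fintype.card I + 1) * (2 : ℝ) ^ n₁ := by
      refine mul_le_mul (by linarith) hn₁.le (by positivity) (by positivity)
    have k4 := mul_le_mul_of_nonneg_right k3 k2
    calc (Fintype.card I : ℝ) * (((2 + (n + 1) ^ 2 * CA n k₀) * (2 : ℝ) ^ c) * b.C) =
        (Fintype.card I : ℝ) * (2 + (n + 1) ^ 2 * CA n k₀) * ((2 : ℝ) ^ c * b.C) := by ring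
      _ ≤ _ := k4
      _ = _ := by ring
  refine h5.trans ((mul_le_mul_of_nonneg_right hS.cn (by positivity)).trans ?_)
  rw [← Real.rpow_intCast, ← Real.rpow_natCast, ← Real.rpow_add (by norm_num)]
  refine Real.rpow_le_rpow_of_exponent_le (by norm_num) ?_
  push_cast
  have h6 : (2 : ℝ) * (n₁ + g) ≤ ns := by exact_mod_cast hns
  linarith

end

end Pool.M5
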